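import Pool.Agent.R387.RC.Main

/-!
# Ratios of successive critical values: duality and the central pair

For motives `M = Res M₀` whose L-functions satisfy the standard functional equation the asserted
formula for `L(m, M) / L(m + 1, M)` is compatible with duality, hence it suffices to treat the pairs
`m, m + 1` in the right half. If the weight `w` is even, then the central pair `w / 2, w / 2 + 1` is
always critical, the ratio has absolute value `√N` (`N` the conductor of `M`), and for rational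
coefficients the formula at the central pair holds if and only if the norm `f` of the conductor of
`M₀` is a perfect square.
-/

set_option autoImplicit false

open NumberField Complex

namespace Pool.Agent.Results.MP_c63a07_nt.CentralCriticalPair

open Pool.Agent.R387.RC

/-- (1) duality and reduction to the right half; (2) the central pair for even weight; (3) for
rational coefficients the question is reduced to the pairs to the right of the centre and to the
question whether the norm of the conductor is a perfect square; (4) extension of coefficients. -/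
theorem result (F : Type) [Field F] [NumberField F] [IsTotallyComplex F] (Δ : ℂ)
    (hΔ : IsDelta F Δ) :
    (∀ (E : Type) [Field E] [NumberField E] (M M' : Motive F E) (ε : (E →+* ℂ) → ℂ),
      IsDual M M' ε →
      (∀ m : ℤ, Crit M m → Crit M (m + 1) → (Formula F Δ M m ↔ Formula F Δ M' (-m))) ∧
      ((Holds F Δ M (fun _ => True) ∧ Holds F Δ M' (fun _ => True)) ↔
        (Holds F Δ M (fun m => M.w ≤ 2 * m) ∧ Holds F Δ M' (fun m => M'.w < 2 * m))) ∧
      ∀ m : ℤ, M.w = 2 * m → Crit M m ∧ Crit M (m + 1) ∧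
        ((∀ ι, M.L ι ((m + 1 : ℤ) : ℂ) ≠ 0) →
          (∀ ι, M.L ι m ≠ 0 ∧ ‖M.L ι m / M.L ι ((m + 1 : ℤ) : ℂ)‖ ^ 2 = M.N) ∧
          (Formula F Δ M m → ∃ e : E, e ≠ 0 ∧
            ∀ ι : E →+* ℂ, ‖ι e‖ ^ 2 * ‖Δ‖ ^ (2 * M.n) = M.N) ∧
          ((∃ ι : E →+* ℂ, bar ι = ι) →
            Even M.n ∧ (Formula F Δ M m → IsSquare ((M.f : ℕ) : E))) ∧
          ((∀ ι : E →+* ℂ, bar ι = ι) →
            (∀ ι ι' : E →+* ℂ, M.L ι m / M.L ι ((m + 1 : ℤ) : ℂ) =
              M.L ι' m / M.L ι' ((m + 1 : ℤ) : ℂ)) →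
            (Formula F Δ M m ↔ IsSquare M.f)))) ∧
    (∀ (M M' : Motive F ℚ) (ε : (ℚ →+* ℂ) → ℂ), IsDual M M' ε →
      ((Holds F Δ M (fun _ => True) ∧ Holds F Δ M' (fun _ => True)) ↔
        (Holds F Δ M (fun m => M.w < 2 * m) ∧ Holds F Δ M' (fun m => M'.w < 2 * m) ∧
          ((∃ m : ℤ, M.w = 2 * m ∧ ∀ ι, M.L ι ((m + 1 : ℤ) : ℂ) ≠ 0) → IsSquare M.f)))) ∧
    (∀ (E E' : Type) [Field E] [NumberField E] [Field E'] [NumberField E'] [Algebra E E']
      (M : Motive F E) (M₂ : Motive F E'), M₂.n = M.n →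
      (∀ (ι : E' →+* ℂ) (k : ℤ), M₂.L ι k = M.L (ι.comp (algebraMap E E')) k) →
      ∀ m : ℤ, Formula F Δ M₂ m ↔ Formula F Δ M m) := by
  obtain ⟨q, hq, hΔq⟩ := hΔ.sq
  refine ⟨fun E _ _ M M' ε h => ⟨fun m h1 h2 => formula_dual h hq hΔq h1 h2,
    right_half h hq hΔq, fun m hm => ⟨(central_crit M hm).1, (central_crit M hm).2,
    fun h0 => ⟨fun ι => ⟨central_ne h hm (h0 ι), central_ratio h hm (h0 ι)⟩,
      fun hf => central_norm h hm h0 hf, ?_, fun hr hs => ?_⟩⟩⟩, ?_,
    fun E E' _ _ _ _ _ M M₂ hn hL m => formula_extend hq hΔq M M₂ hn m hL⟩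
  · rintro ⟨ι, hι⟩
    have hev := even_rank M hι
    exact ⟨hev, fun hf => (square_iff M hev E).1 (central_square h hq hΔq hm h0 hι hf)⟩
  · obtain ⟨ι⟩ : Nonempty (E →+* ℂ) := inferInstance
    rw [← square_iff_nat M (even_rank M (hr ι))]
    exact central_iff h hq hΔq hm h0 hr hs
  · intro M M' ε h
    have hsub : ∀ ι ι' : ℚ →+* ℂ, ι = ι' := fun ι ι' => Subsingleton.elim _ _
    have hev : Even M.n := even_rank M (ι := Rat.castHom ℂ) (hsub _ _)
    rw [right_half h hq hΔq, ← square_iff_nat M hev]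
    constructor
    · rintro ⟨h1, h2⟩
      refine ⟨fun m hm => h1 m (le_of_lt hm), h2, ?_⟩
      rintro ⟨m, hm, h0⟩
      obtain ⟨c1, c2⟩ := central_crit M hm
      refine (central_iff h hq hΔq hm h0 (fun ι => hsub _ _)
        (fun ι ι' => by rw [hsub ι ι'])).1 ?_
      exact h1 m (le_of_eq hm) c1 c2 (fun ι => central_ne h hm (h0 ι)) h0
    · rintro ⟨h1, h2, h3⟩
      refine ⟨fun m hm c1 c2 n1 n2 => ?_, h2⟩
      rcases lt_or_eq_of_le hm with hm' | hm'
      · exact h1 m hm' c1 c2 n1 n2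
      · exact (central_iff h hq hΔq hm' n2 (fun ι => hsub _ _)
          (fun ι ι' => by rw [hsub ι ι'])).2 (h3 ⟨m, hm', n2⟩)

end Pool.Agent.Results.MP_c63a07_nt.CentralCriticalPair
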