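import Pool.Agent.R696.TF.Sub

/-!
# Ratios of successive critical values and trilinear forms

Let `F` be a totally imaginary number field and `E` a number field (in the theorem: any field of
characteristic zero and any field). Let `𝓜` be the category of motives over `F` with coefficients in `E`
for absolute Hodge cycles, which is abelian and semisimple (Deligne). For every separated scheme `X` of
finite type over `F` let `H_i(X)(-j)` be the sum of the graded pieces `gr^W_w` of its Borel-Moore
homology, twisted, with coefficients in `E`; these are objects of `𝓜` by the construction of Deligne of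
the weight filtration from smooth projective varieties (Jannsen), and the long exact sequences of mixed
realizations of a closed subscheme and its complement give long exact sequences of the graded pieces in
`𝓜` (`Homology`; for all the fields of this structure see `Pool/Agent/R696/TF/Cat.lean`).

`MotivicData` records the rank of every motive `M₀`, the set of the Hodge types of
`M = Res_{F/ℚ} M₀`, and the completed `L`-functions `L(s, ι, M)` in their half planes of convergence.
`Critical` is the condition of Deligne for the integer `m` to be critical for `M`: since `F` is totally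
imaginary, the archimedean factor is the product of the `Γ_ℂ(s - p)` for the Hodge types `(p, q)`, `p < q`,
if there is no middle type `(p, p)`. `DeligneRatio` is the assertion of Q1 for one motive `M₀`, with the
continuation convention of the problem, `δ` being `𝔦^(d_F/2) Δ_F`.

Let `S` be the class of the smooth projective schemes. By resolution of singularities every smooth `X`
of dimension at most `d` is birational to a member of `S` of dimension at most `d` (`Models`). The
submotives of the `H_i(X)(-j)`, `X ∈ S`, are all the motives (`H_i(X)` being dual to `H^i(X)`), and the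
Hodge types `(p, q)` of `H_i(X)`, `dim X ≤ d`, satisfy `|p - q| ≤ d` (`hlevel`).

The hypersurface of a trilinear form `T` over `F` is the affine cubic hypersurface `T(x, y, z) = 1`
(`hypS T`), `x`, `y`, `z` being three blocks of variables of any sizes. It is smooth.

*Proof.* In a semisimple category a simple subobject of the middle term of an exact sequence `A → B → D`
is a subobject of `A` or of `D`. So every property of simple motives passes to the third of the schemes
`X`, `Z`, `X - Z` from two of them, and is invariant under affine bundles; now the universality of the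
trilinear forms (starting library) applies.
-/

set_option autoImplicit false

open CategoryTheory CategoryTheory.Limits AlgebraicGeometry Pool.Agent.R696.TF Pool.Agent.Y116.UV
  Pool.Agent.Z125.UN

namespace Pool.Agent.Results.MP_c63a07_nt.TrilinearForms

universe u v

/-- Ranks, sets of Hodge types and completed `L`-functions of motives with coefficients in `E`. -/
structure MotivicData (E : Type) [Field E] (𝓜 : Type u) where
  rank : 𝓜 → ℕ
  types : 𝓜 → Set (ℤ × ℤ)
  L : (E →+* ℂ) → 𝓜 → ℂ → ℂ

variable {E : Type} [Field E] {𝓜 : Type u}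

/-- The integer `m` is critical for `M`: `p < m ≤ q` for all Hodge types `(p, q)` with `p ≤ q` (in
particular, there is no middle Hodge type), and symmetrically. -/
def Critical (D : MotivicData E 𝓜) (M : 𝓜) (m : ℤ) : Prop :=
  ∀ t ∈ D.types M, min t.1 t.2 < m ∧ m ≤ max t.1 t.2

/-- `f` is a meromorphic continuation to the plane of the function `L`, given in a half plane. -/
def Continues (L f : ℂ → ℂ) : Prop :=
  (∀ s, MeromorphicAt f s) ∧ ∃ c : ℝ, ∀ s : ℂ, c < s.re → f s = L s

/-- Q1 for the motive `M`: if all `L(s, ι, M)` have meromorphic continuations `f ι` which are holomorphic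
at `m` and `m + 1`, both critical, and `L(m + 1, M) ≠ 0` in `E ⊗ ℂ`, then
`L(m, M) = (e ⊗ 1) (1 ⊗ δ)^n L(m + 1, M)` for some nonzero `e` in `E`, `n` the rank. -/
def DeligneRatio (D : MotivicData E 𝓜) (δ : ℂ) (M : 𝓜) : Prop :=
  ∀ (f : (E →+* ℂ) → ℂ → ℂ) (m : ℤ), (∀ ι, Continues (D.L ι M) (f ι)) →
    Critical D M m → Critical D M (m + 1) →
    (∀ ι, AnalyticAt ℂ (f ι) m ∧ AnalyticAt ℂ (f ι) (m + 1)) → (∃ ι, f ι (m + 1) ≠ 0) →
    ∃ e : E, e ≠ 0 ∧ ∀ ι, f ι m = ι e * δ ^ D.rank M * f ι (m + 1)

variable [Category.{v} 𝓜] [Abelian 𝓜]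

/-- All simple subobjects of the homology of `X` have the property `Q`. -/
def OnSimple {k : Type} [Field k] (Q : 𝓜 → Prop) (H : Homology k 𝓜) (X : Sch k) : Prop :=
  ∀ (i j : ℤ) (B : 𝓜) [Simple B] (f : B ⟶ H.obj i j X) [Mono f], Q B

/-- `B` is a subobject of the homology of `X`, in some bidegree. -/
def OccursIn {k : Type} [Field k] (H : Homology k 𝓜) (B : 𝓜) (X : Sch k) : Prop :=
  ∃ (i j : ℤ) (f : B ⟶ H.obj i j X), Mono f

/-- all simple subobjects have the property `Q` -/
def AllSimple (Q : 𝓜 → Prop) (A : 𝓜) : Prop := ∀ (B : 𝓜) [Simple B] (f : B ⟶ A) [Mono f], Q B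

theorem allSimple_sumClosed (Q : 𝓜 → Prop) : SumClosed (AllSimple Q) where
  iso e h B _ f _ := h B (f ≫ e.inv)
  sum A₁ A₂ h₁ h₂ B _ f _ := by
    by_cases h : f ≫ (biprod.fst : A₁ ⊞ A₂ ⟶ A₁) = 0
    · have h' : f ≫ (biprod.snd : A₁ ⊞ A₂ ⟶ A₂) ≠ 0 := by
        intro h'
        have h0 : f = 0 := by
          apply biprod.hom_ext
          · rw [h, zero_comp]
          · rw [h', zero_comp]
        exact Simple.not_isZero B ((IsZero.iff_id_eq_zero B).2 (by
          rw [← cancel_mono f, h0, comp_zero, zero_comp]))
      have := mono_of_nonzero_from_simple h'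
      exact h₂ B (f ≫ biprod.snd)
    · have := mono_of_nonzero_from_simple h
      exact h₁ B (f ≫ biprod.fst)

theorem holdsOn_iff {k : Type} [Field k] (Q : 𝓜 → Prop) (H : Homology k 𝓜) (X : Sch k) :
    HoldsOn (AllSimple Q) H X ↔ OnSimple Q H X := by
  constructor
  · intro h i j B _ f _
    exact h i j B f B (𝟙 B)
  · intro h i j A g _ B _ f _
    exact h i j B (f ≫ g)

/-- the main equivalences for properties of simple subobjects -/
theorem main_simple {k : Type} [Field k] [CharZero k] (hs : Semisimple 𝓜) (Q : 𝓜 → Prop)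
    (H : Homology k 𝓜) (S : Sch k → Prop) (hS : Models S) (hpt : OnSimple Q H (aff k k)) :
    ([∀ X : Sch k, FT True X → S X → OnSimple Q H X,
      ∀ X : Sch k, FT True X → OnSimple Q H X,
      ∀ (a b c : ℕ) (T : Fin a → Fin b → Fin c → k), OnSimple Q H (hypS T)].TFAE) ∧
    (∀ d : ℕ, [∀ X : Sch k, FT True X → S X → topologicalKrullDim X.left ≤ d → OnSimple Q H X,
      ∀ X : Sch k, FT True X → topologicalKrullDim X.left ≤ d → OnSimple Q H X,
      ∀ (a b c : ℕ) (T : Fin a → Fin b → Fin c → k), (a ≤ d + 2 ∨ b ≤ d + 2 ∨ c ≤ d + 2) →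
        OnSimple Q H (hypS T)].TFAE) := by
  have hM := H.mid (her_thick hs (allSimple_sumClosed Q))
    (fun i j => (holdsOn_iff Q H _).2 hpt i j)
  have h1 := hM.main_all hS
  have h2 := hM.main_dim hS
  have key : ∀ X : Sch k, All (fun i j X => Her (AllSimple Q) (H.obj i j X)) X ↔ OnSimple Q H X :=
    fun X => holdsOn_iff Q H X
  simp only [ClassLe, DimLe, Block, key] at h1 h2
  exact ⟨h1, h2⟩

/-- The Hodge types `(p, q)` of `B` satisfy `|p - q| ≤ d`. -/
def LevelLe (D : MotivicData E 𝓜) (d : ℕ) (B : 𝓜) : Prop := ∀ t ∈ D.types B, |t.1 - t.2| ≤ d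

/-- **Ratios of successive critical values and trilinear forms.**
1. The following are equivalent: Q1 for the simple submotives of all `H_i(X)(-j)`, `X` smooth
   projective over `F`, which are all the simple motives; the same for all schemes `X`; the same for the
   hypersurfaces `T(x, y, z) = 1` of all trilinear forms over `F`.
2. For every `d` the following are equivalent: Q1 for the simple submotives for the smooth projective
   schemes of dimension at most `d`; for all schemes of dimension at most `d`; for the hypersurfaces of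
   the trilinear forms with a block of at most `d + 2` variables.
3. If `T` has a block of at most `d + 2` variables, then all simple submotives of the homology of its
   hypersurface have Hodge types with `|p - q| ≤ d`, and at most `d` critical integers.
4. Q1 holds for the simple submotives for the hypersurfaces of the trilinear forms with a block of at
   most three variables (none has two successive critical integers).
5. Every simple submotive of `H_i(X)(-j)`, `X` any scheme of dimension at most `d`, occurs in the
   homology of the point or of the hypersurface of a trilinear form with a block of at most `d + 2`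
   variables.
6. The hypersurfaces are smooth. -/
theorem result (F : Type) [Field F] [CharZero F] (E : Type) [Field E] (𝓜 : Type u)
    [Category.{v} 𝓜] [Abelian 𝓜] (hs : Semisimple 𝓜) (D : MotivicData E 𝓜) (δ : ℂ)
    (H : Homology F 𝓜) (S : Sch F → Prop) (hpoint : S (aff F F)) (hS : Models S)
    (hne : ∀ B : 𝓜, Simple B → (D.types B).Nonempty)
    (hlevel : ∀ (d : ℕ) (X : Sch F), FT True X → S X → topologicalKrullDim X.left ≤ d →
      OnSimple (LevelLe D d) H X) :
    ([∀ X : Sch F, FT True X → S X → OnSimple (DeligneRatio D δ) H X,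
      ∀ X : Sch F, FT True X → OnSimple (DeligneRatio D δ) H X,
      ∀ (a b c : ℕ) (T : Fin a → Fin b → Fin c → F),
        OnSimple (DeligneRatio D δ) H (hypS T)].TFAE) ∧
    (∀ d : ℕ, [∀ X : Sch F, FT True X → S X → topologicalKrullDim X.left ≤ d →
        OnSimple (DeligneRatio D δ) H X,
      ∀ X : Sch F, FT True X → topologicalKrullDim X.left ≤ d → OnSimple (DeligneRatio D δ) H X,
      ∀ (a b c : ℕ) (T : Fin a → Fin b → Fin c → F), (a ≤ d + 2 ∨ b ≤ d + 2 ∨ c ≤ d + 2) →
        OnSimple (DeligneRatio D δ) H (hypS T)].TFAE) ∧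
    (∀ (d a b c : ℕ) (T : Fin a → Fin b → Fin c → F), (a ≤ d + 2 ∨ b ≤ d + 2 ∨ c ≤ d + 2) →
      OnSimple (fun B => LevelLe D d B ∧ {m : ℤ | Critical D B m}.encard ≤ d) H (hypS T)) ∧
    (∀ (a b c : ℕ) (T : Fin a → Fin b → Fin c → F), (a ≤ 3 ∨ b ≤ 3 ∨ c ≤ 3) →
      OnSimple (DeligneRatio D δ) H (hypS T)) ∧
    (∀ (d : ℕ) (X : Sch F), FT True X → topologicalKrullDim X.left ≤ d →
      OnSimple (fun B => OccursIn H B (aff F F) ∨
        ∃ (a b c : ℕ) (T : Fin a → Fin b → Fin c → F), (a ≤ d + 2 ∨ b ≤ d + 2 ∨ c ≤ d + 2) ∧
          OccursIn H B (hypS T)) H X) ∧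
    ∀ (a b c : ℕ) (T : Fin a → Fin b → Fin c → F), Smooth (hypS T).hom := by
  have hft : FT True (aff F F) := ft_aff True
  have hdim0 : topologicalKrullDim (aff F F).left = 0 := by
    rw [topDim_aff]
    exact ringKrullDim_eq_zero_of_field F
  have hpt0 : ∀ d : ℕ, OnSimple (LevelLe D d) H (aff F F) := by
    intro d
    refine hlevel d _ hft hpoint ?_
    rw [hdim0]
    exact_mod_cast Nat.zero_le d
  have hcrit : ∀ (B : 𝓜), Simple B → LevelLe D 1 B → DeligneRatio D δ B := by
    intro B hB h1 f m _ hm hm' _ _
    obtain ⟨t, ht⟩ := hne B hB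
    have g1 := hm t ht
    have g2 := hm' t ht
    have g3 := h1 t ht
    exfalso
    rw [abs_le] at g3
    push_cast at g3
    omega
  have hq0 : OnSimple (DeligneRatio D δ) H (aff F F) := fun i j B _ f _ =>
    hcrit B inferInstance (hpt0 1 i j B f)
  obtain ⟨m1, m2⟩ := main_simple hs (DeligneRatio D δ) H S hS hq0
  have hlev : ∀ (d a b c : ℕ) (T : Fin a → Fin b → Fin c → F),
      (a ≤ d + 2 ∨ b ≤ d + 2 ∨ c ≤ d + 2) → OnSimple (LevelLe D d) H (hypS T) := by
    intro d
    have h := (main_simple hs (LevelLe D d) H S hS (hpt0 d)).2 d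
    exact (h.out 0 2).1 (hlevel d)
  refine ⟨m1, m2, ?_, ?_, ?_, fun _ _ _ _ => Pool.Agent.Z125.UN.smooth_hypS _⟩
  · intro d a b c T hT i j B hB f hf
    have h1 := hlev d a b c T hT i j B f
    refine ⟨h1, ?_⟩
    obtain ⟨t, ht⟩ := hne B hB
    have h2 : {m : ℤ | Critical D B m} ⊆ (Finset.Ioc (min t.1 t.2) (max t.1 t.2) : Finset ℤ) := by
      intro m hm
      rw [Finset.mem_coe, Finset.mem_Ioc]
      exact hm t ht
    refine (Set.encard_le_encard h2).trans ?_
    rw [Set.encard_coe_eq_coe_finsetCard, Int.card_Ioc]
    have g3 := h1 t ht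
    rw [abs_le] at g3
    have g4 : (max t.1 t.2 - min t.1 t.2).toNat ≤ d := by omega
    exact_mod_cast g4
  · intro a b c T hT i j B hB f hf
    exact hcrit B hB (hlev 1 a b c T hT i j B f)
  · intro d
    have h := (main_simple hs (fun B => OccursIn H B (aff F F) ∨
        ∃ (a b c : ℕ) (T : Fin a → Fin b → Fin c → F), (a ≤ d + 2 ∨ b ≤ d + 2 ∨ c ≤ d + 2) ∧
          OccursIn H B (hypS T)) H S hS (fun i j B _ f hf => Or.inl ⟨i, j, f, hf⟩)).2 d
    refine (h.out 2 1).1 ?_
    intro a b c T hT i j B _ f hf
    exact Or.inr ⟨a, b, c, T, hT, i, j, f, hf⟩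

end Pool.Agent.Results.MP_c63a07_nt.TrilinearForms
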